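import Pool.Agent.H95.FC.Targets
import Pool.Agent.H46.CN.OB2
import Pool.Agent.H37.CF.Basic

/-!
# Row AHOM of `fmx_modules`: lines with equivalent forms differ by a unit
-/

set_option autoImplicit false

open MeasureTheory Set Filter NumberField
open scoped Real nonZeroDivisors Matrix MatrixGroups

namespace Pool.Agent.H10.FC

open Pool.Agent.H31.CN Pool.Agent.H89.FM Pool.Agent.H61.FM Pool.Agent.H89.FC Pool.Agent.H95.FC

/-- an oriented pair with its norm form -/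
structure NB (K : Type) [Field K] [NumberField K] (σ : K →+* ℂ) (N : ℝ) (A B : 𝓞 K) (M : QF) :
    Prop where
  inj : ∀ v : ℤ × ℤ, (v.1 : 𝓞 K) * A + (v.2 : 𝓞 K) * B = 0 → v = 0
  nrm : ∀ v : ℤ × ℤ, Complex.normSq (σ (((v.1 : 𝓞 K) * A + (v.2 : 𝓞 K) * B : 𝓞 K) : K)) =
    N * val M v
  ori : 0 < ((starRingEnd ℂ) (σ (A : K)) * σ (B : K)).im

section

variable {K : Type} [Field K] [NumberField K] {σ : K →+* ℂ}

theorem NB_act {N : ℝ} {A B : 𝓞 K} {M : QF} (g : Matrix.SpecialLinearGroup (Fin 2) ℤ)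
    (h : NB K σ N A B M) :
    NB K σ N ((g 0 0 : 𝓞 K) * A + (g 1 0 : 𝓞 K) * B) ((g 0 1 : 𝓞 K) * A + (g 1 1 : 𝓞 K) * B)
      (act M g) := by
  have hdet : g 0 0 * g 1 1 - g 0 1 * g 1 0 = 1 := by
    have := g.det_coe
    rwa [Matrix.det_fin_two] at this
  have hcomb : ∀ v : ℤ × ℤ, (v.1 : 𝓞 K) * ((g 0 0 : 𝓞 K) * A + (g 1 0 : 𝓞 K) * B) +
      (v.2 : 𝓞 K) * ((g 0 1 : 𝓞 K) * A + (g 1 1 : 𝓞 K) * B) =
      ((gv g v).1 : 𝓞 K) * A + ((gv g v).2 : 𝓞 K) * B := by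
    intro v
    simp only [gv]
    push_cast
    ring
  refine ⟨fun v hv => ?_, fun v => ?_, ?_⟩
  · rw [hcomb] at hv
    have h0 := h.inj _ hv
    have h1 : g 0 0 * v.1 + g 0 1 * v.2 = 0 := congrArg Prod.fst h0
    have h2 : g 1 0 * v.1 + g 1 1 * v.2 = 0 := congrArg Prod.snd h0
    apply Prod.ext
    · show v.1 = 0
      linear_combination (-v.1) * hdet + g 1 1 * h1 - g 0 1 * h2
    · show v.2 = 0
      linear_combination (-v.2) * hdet + g 0 0 * h2 - g 1 0 * h1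
  · rw [hcomb, h.nrm]
    congr 2
    simp only [act, val, gv]
    ring
  · have ho := h.ori
    have e : ((starRingEnd ℂ) (σ (((g 0 0 : 𝓞 K) * A + (g 1 0 : 𝓞 K) * B : 𝓞 K) : K)) *
        σ (((g 0 1 : 𝓞 K) * A + (g 1 1 : 𝓞 K) * B : 𝓞 K) : K)).im =
        ((g 0 0 * g 1 1 - g 0 1 * g 1 0 : ℤ) : ℝ) *
          ((starRingEnd ℂ) (σ (A : K)) * σ (B : K)).im := by
      simp only [map_add, map_mul, map_intCast]
      generalize σ (A : K) = a
      generalize σ (B : K) = b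
      simp only [Complex.mul_im, Complex.add_re, Complex.add_im, Complex.mul_re, Complex.conj_re,
        Complex.conj_im, Complex.intCast_re, Complex.intCast_im]
      push_cast
      ring
    rw [e, hdet]
    simpa using ho

theorem NB.ne {N : ℝ} {A B : 𝓞 K} {M : QF} (h : NB K σ N A B M) : A ≠ 0 := by
  intro h0
  have := h.inj (1, 0) (by simp [h0])
  simp at this

theorem NB_pair {N N' : ℝ} {A B A' B' : 𝓞 K} {M : QF} (hN : 0 < N) (hN' : 0 < N')
    (h : NB K σ N A B M) (h' : NB K σ N' A' B' M) : A * B' = A' * B := by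
  have n1 := h.nrm (1, 0)
  have n2 := h.nrm (0, 1)
  have n3 := h.nrm (1, 1)
  have n1' := h'.nrm (1, 0)
  have n2' := h'.nrm (0, 1)
  have n3' := h'.nrm (1, 1)
  simp only [Int.cast_one, Int.cast_zero, one_mul, zero_mul, add_zero, zero_add, map_add] at n1 n2 n3 n1' n2' n3'
  have hq : 0 < (val M (1, 0) : ℝ) := by
    have hpos : 0 < Complex.normSq (σ (A : K)) := by
      rw [Complex.normSq_pos]
      intro h0
      apply h.ne
      have := (map_eq_zero σ).1 h0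
      exact_mod_cast this
    rw [n1] at hpos
    exact (pos_iff_pos_of_mul_pos hpos).1 hN
  have key := Pool.Agent.H46.CN.pair_eq _ _ _ _ _ _ _ _ _ hN hN' hq h.ori h'.ori n1 n2 n3 n1' n2' n3'
  have e : σ (algebraMap (𝓞 K) K (A * B')) = σ (algebraMap (𝓞 K) K (A' * B)) := by
    simpa only [map_mul] using key
  exact FaithfulSMul.algebraMap_injective (𝓞 K) K (σ.injective e)

/-- the number of the vector `io f V W v` -/
theorem lv_io (α β : 𝓞 K) (f : ℕ) (V W v : ℤ × ℤ) :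
    lv K α β (io f V W v) = (v.1 : 𝓞 K) * lv K α β V + (v.2 : 𝓞 K) * ((f : 𝓞 K) * lv K α β W) := by
  simp only [io, lv]
  show ((v.1 * V.1 + f * v.2 * W.1 : ℤ) : 𝓞 K) * α + ((v.1 * V.2 + f * v.2 * W.2 : ℤ) : 𝓞 K) * β = _
  push_cast
  ring

theorem NB_io (hFLF : Pool.Agent.H95.FC.T_FLF) {I : Ideal (𝓞 K)} {α β : 𝓞 K} {Q : QF} {f : ℕ}
    {V W : ℤ × ℤ} (hf : 1 ≤ f) (hVW : det V W = 1) (h : OB K σ I α β Q) :
    NB K σ (Ideal.absNorm I : ℝ) (lv K α β V) ((f : 𝓞 K) * lv K α β W) (fl f Q V W) := by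
  obtain ⟨h1, -, -, h4, -⟩ := hFLF f Q V W hf hVW
  refine ⟨fun v hv => ?_, fun v => ?_, ?_⟩
  · rw [← lv_io] at hv
    have h5 := h.inj _ hv
    apply h4
    rw [h5, map_zero]
  · rw [← lv_io, h1]
    exact h.nrm _
  · have e : ((starRingEnd ℂ) (σ (((lv K α β V : 𝓞 K)) : K)) *
        σ ((((f : 𝓞 K) * lv K α β W : 𝓞 K)) : K)).im =
        (f : ℝ) * ((det V W : ℤ) : ℝ) * ((starRingEnd ℂ) (σ (α : K)) * σ (β : K)).im := by
      simp only [lv, map_add, map_mul, map_intCast, map_natCast, det]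
      generalize σ (α : K) = a
      generalize σ (β : K) = b
      simp only [Complex.mul_im, Complex.add_re, Complex.add_im, Complex.mul_re, Complex.conj_re,
        Complex.conj_im, Complex.intCast_re, Complex.intCast_im, Complex.natCast_re,
        Complex.natCast_im]
      push_cast
      ring
    rw [e, hVW]
    have h5 := h.ori
    have h6 : (0 : ℝ) < f := by exact_mod_cast hf
    push_cast
    positivity

/-- the ideal generated by the lattice of a line -/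
theorem span_pair (hPRN : Pool.Agent.H95.CF.T_PRN) {I : (Ideal (𝓞 K))⁰} {α β : 𝓞 K} {Q : QF}
    {b : ℤ × ℤ → (Ideal (𝓞 K))⁰} {f : ℕ} {V W : ℤ × ℤ} (hVW : det V W = 1)
    (h : OB K σ I α β Q) (hb : VB I α β Q b) (hU : Uv f Q V) :
    Ideal.span {lv K α β V, (f : 𝓞 K) * lv K α β W} = (I : Ideal (𝓞 K)) := by
  have hV0 : V ≠ 0 := by
    rintro rfl
    simp [det] at hVW
  have hmem : ∀ v : ℤ × ℤ, lv K α β v ∈ (I : Ideal (𝓞 K)) := fun v => (h.mem _).2 ⟨v, rfl⟩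
  apply le_antisymm
  · rw [Ideal.span_le]
    intro z hz
    rcases hz with rfl | hz
    · exact hmem V
    · rw [Set.mem_singleton_iff] at hz
      rw [hz]
      exact Ideal.mul_mem_left _ _ (hmem W)
  · have hpr : (b V : Ideal (𝓞 K)) ⊔ Ideal.span {(f : 𝓞 K)} = ⊤ := by
      have h1 : (b V : Ideal (𝓞 K)) ≠ ⊥ := nonZeroDivisors.coe_ne_zero (b V)
      have h2 := (hPRN K f (b V : Ideal (𝓞 K)) h1).2 (by
        have h3 := hb.nrm V hV0
        have h4 : IsCoprime ((nm (b V) : ℕ) : ℤ) (f : ℤ) := by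
          rw [h3]
          exact hU
        exact Nat.isCoprime_iff_coprime.1 h4)
      exact h2.2
    have h1 : (I : Ideal (𝓞 K)) = (b V : Ideal (𝓞 K)) * I ⊔ Ideal.span {(f : 𝓞 K)} * I := by
      rw [← Ideal.sup_mul, hpr, Ideal.top_mul]
    rw [h1, ← hb.spn V hV0]
    refine sup_le ?_ ?_
    · rw [Ideal.span_le, Set.singleton_subset_iff]
      exact Ideal.subset_span (Set.mem_insert _ _)
    · rw [Ideal.mul_le]
      intro r hr z hz
      obtain ⟨t, rfl⟩ := Ideal.mem_span_singleton.1 hr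
      obtain ⟨v, rfl⟩ := (h.mem _).1 hz
      have e : (f : 𝓞 K) * t * ((v.1 : 𝓞 K) * α + (v.2 : 𝓞 K) * β) =
          (t * (f : 𝓞 K) * ((det v W : ℤ) : 𝓞 K)) * lv K α β V +
            (t * ((det V v : ℤ) : 𝓞 K)) * ((f : 𝓞 K) * lv K α β W) := by
        have h2 : ((det V W : ℤ) : 𝓞 K) = 1 := by rw [hVW]; simp
        simp only [det, lv] at h2 ⊢
        push_cast at h2 ⊢
        linear_combination (-(f : 𝓞 K) * t * ((v.1 : 𝓞 K) * α + (v.2 : 𝓞 K) * β)) * h2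
      rw [e]
      exact Ideal.add_mem _ (Ideal.mul_mem_left _ _ (Ideal.subset_span (Set.mem_insert _ _)))
        (Ideal.mul_mem_left _ _ (Ideal.subset_span (Set.mem_insert_of_mem _ rfl)))

/-- a unimodular transformation of the generators -/
theorem span_act (A B : 𝓞 K) (g : Matrix.SpecialLinearGroup (Fin 2) ℤ) :
    Ideal.span {(g 0 0 : 𝓞 K) * A + (g 1 0 : 𝓞 K) * B, (g 0 1 : 𝓞 K) * A + (g 1 1 : 𝓞 K) * B} =
      Ideal.span {A, B} := by
  have hdet : ((g 0 0 * g 1 1 - g 0 1 * g 1 0 : ℤ) : 𝓞 K) = 1 := by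
    have := g.det_coe
    rw [Matrix.det_fin_two] at this
    rw [this, Int.cast_one]
  push_cast at hdet
  apply le_antisymm
  · rw [Ideal.span_le]
    intro z hz
    have hA : A ∈ Ideal.span {A, B} := Ideal.subset_span (Set.mem_insert _ _)
    have hB : B ∈ Ideal.span {A, B} := Ideal.subset_span (Set.mem_insert_of_mem _ rfl)
    rcases hz with rfl | hz
    · exact Ideal.add_mem _ (Ideal.mul_mem_left _ _ hA) (Ideal.mul_mem_left _ _ hB)
    · rw [Set.mem_singleton_iff] at hz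
      rw [hz]
      exact Ideal.add_mem _ (Ideal.mul_mem_left _ _ hA) (Ideal.mul_mem_left _ _ hB)
  · obtain ⟨A1, hA1⟩ : ∃ A1, A1 = (g 0 0 : 𝓞 K) * A + (g 1 0 : 𝓞 K) * B := ⟨_, rfl⟩
    obtain ⟨B1, hB1⟩ : ∃ B1, B1 = (g 0 1 : 𝓞 K) * A + (g 1 1 : 𝓞 K) * B := ⟨_, rfl⟩
    rw [← hA1, ← hB1]
    have hA : A1 ∈ Ideal.span {A1, B1} := Ideal.subset_span (Set.mem_insert _ _)
    have hB : B1 ∈ Ideal.span {A1, B1} := Ideal.subset_span (Set.mem_insert_of_mem _ rfl)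
    have e1 : A = (g 1 1 : 𝓞 K) * A1 + (-(g 1 0 : 𝓞 K)) * B1 := by
      rw [hA1, hB1]
      linear_combination (-A) * hdet
    have e2 : B = (-(g 0 1 : 𝓞 K)) * A1 + (g 0 0 : 𝓞 K) * B1 := by
      rw [hA1, hB1]
      linear_combination (-B) * hdet
    rw [Ideal.span_le]
    intro z hz
    rcases hz with rfl | hz
    · rw [e1]
      exact Ideal.add_mem _ (Ideal.mul_mem_left _ _ hA) (Ideal.mul_mem_left _ _ hB)
    · rw [Set.mem_singleton_iff] at hz
      rw [hz, e2]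
      exact Ideal.add_mem _ (Ideal.mul_mem_left _ _ hA) (Ideal.mul_mem_left _ _ hB)

/-- the product of a principal ideal and an ideal with two generators -/
theorem span_mul_pair (x A B : 𝓞 K) :
    Ideal.span {x} * Ideal.span {A, B} = Ideal.span {x * A, x * B} := by
  rw [Ideal.span_mul_span']
  congr 1
  ext z
  simp only [Set.mem_mul, Set.mem_singleton_iff, Set.mem_insert_iff]
  constructor
  · rintro ⟨y, rfl, w, rfl | rfl, rfl⟩
    · exact Or.inl rfl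
    · exact Or.inr rfl
  · rintro (rfl | rfl)
    · exact ⟨x, rfl, A, Or.inl rfl, rfl⟩
    · exact ⟨x, rfl, B, Or.inr rfl, rfl⟩

end

/-- (HOM) lines with equivalent forms differ by a unit. -/
theorem pf_HOM (hFLF : Pool.Agent.H95.FC.T_FLF) (hPRN : Pool.Agent.H95.CF.T_PRN) :
    Pool.Agent.H95.FC.T_HOM := by
  intro K _ _ D f hIQ hf R b hb c c' V V' W W' g hVW hVW' hU hU' hact
  have n1 := NB_act g (NB_io hFLF hf hVW (R.ob c))
  have n2 := NB_io (f := f) hFLF hf hVW' (R.ob c')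
  rw [hact] at n1
  have hN : 0 < (Ideal.absNorm (R.I c : Ideal (𝓞 K)) : ℝ) := by
    exact_mod_cast Ideal.absNorm_pos_of_nonZeroDivisors (R.I c)
  have hN' : 0 < (Ideal.absNorm (R.I c' : Ideal (𝓞 K)) : ℝ) := by
    exact_mod_cast Ideal.absNorm_pos_of_nonZeroDivisors (R.I c')
  have key := NB_pair hN hN' n1 n2
  have s1 := span_pair hPRN hVW (R.ob c) (hb c) hU
  have s2 := span_pair hPRN hVW' (R.ob c') (hb c') hU'
  rw [← span_act _ _ g] at s1
  have hA1 := n1.ne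
  have hA' := n2.ne
  obtain ⟨A, hA⟩ : ∃ A, A = lv K (R.α c) (R.β c) V := ⟨_, rfl⟩
  obtain ⟨B, hB⟩ : ∃ B, B = (f : 𝓞 K) * lv K (R.α c) (R.β c) W := ⟨_, rfl⟩
  rw [← hA, ← hB] at n1 key s1 hA1
  obtain ⟨A1, hA1d⟩ : ∃ A1, A1 = (g 0 0 : 𝓞 K) * A + (g 1 0 : 𝓞 K) * B := ⟨_, rfl⟩
  obtain ⟨B1, hB1d⟩ : ∃ B1, B1 = (g 0 1 : 𝓞 K) * A + (g 1 1 : 𝓞 K) * B := ⟨_, rfl⟩
  rw [← hA1d, ← hB1d] at key s1
  rw [← hA1d] at hA1
  obtain ⟨A', hA'd⟩ : ∃ A', A' = lv K (R.α c') (R.β c') V' := ⟨_, rfl⟩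
  obtain ⟨B', hB'd⟩ : ∃ B', B' = (f : 𝓞 K) * lv K (R.α c') (R.β c') W' := ⟨_, rfl⟩
  rw [← hA'd, ← hB'd] at key s2
  rw [← hA'd] at hA'
  have hspan : Ideal.span {A'} * (R.I c : Ideal (𝓞 K)) = Ideal.span {A1} * (R.I c' : Ideal (𝓞 K)) := by
    rw [← s1, ← s2, span_mul_pair, span_mul_pair, key, mul_comm A' A1]
  have hc : c = c' := by
    rw [← R.cl c, ← R.cl c', ClassGroup.mk0_eq_mk0_iff]
    exact ⟨A', A1, hA', hA1, hspan⟩
  subst hc
  refine ⟨rfl, ?_⟩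
  have hI0 : (R.I c : Ideal (𝓞 K)) ≠ 0 := nonZeroDivisors.coe_ne_zero (R.I c)
  have h1 : Ideal.span {A1} = Ideal.span {A'} := (mul_right_cancel₀ hI0 hspan).symm
  rw [Ideal.span_singleton_eq_span_singleton] at h1
  obtain ⟨u, hu⟩ := h1
  have h2 : B' = (u : 𝓞 K) * B1 := by
    apply mul_left_cancel₀ hA1
    rw [key, ← hu]
    ring
  refine ⟨u, io f V' W' (g 1 1, -g 1 0), ?_, ?_⟩
  · rw [lv_io, ← hA, ← hA'd, ← hB'd, h2, ← hu]
    have hdet : ((g 0 0 * g 1 1 - g 0 1 * g 1 0 : ℤ) : 𝓞 K) = 1 := by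
      have := g.det_coe
      rw [Matrix.det_fin_two] at this
      rw [this, Int.cast_one]
    push_cast at hdet ⊢
    rw [hA1d, hB1d]
    linear_combination ((u : 𝓞 K) * A) * hdet
  · exact ((hFLF f (R.Q c) V' W' hf hVW').2.2.2.2 _).2 ⟨_, rfl⟩

end Pool.Agent.H10.FC
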