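import Pool.Agent.H95.FC.Targets
import Pool.Agent.H37.CF.Basic

/-!
# Row APRI of `fmx_modules`: primitivity of the character on the lines
-/

set_option autoImplicit false

open MeasureTheory Set Filter NumberField
open scoped Real nonZeroDivisors Matrix MatrixGroups

namespace Pool.Agent.H10.FC

open Pool.Agent.H31.CN Pool.Agent.H89.FM Pool.Agent.H61.FM Pool.Agent.H89.FC Pool.Agent.H95.FC

section

variable {K : Type} [Field K] [NumberField K]

theorem ty_mul (σ : K →+* ℂ) (a b : 𝓞 K) : ty K σ (a * b) = ty K σ a * ty K σ b := by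
  simp only [ty, map_mul]
  rw [mul_div_mul_comm]

theorem ty_ne (σ : K →+* ℂ) {a : 𝓞 K} (ha : a ≠ 0) : ty K σ a ≠ 0 := by
  have h1 : σ (a : K) ≠ 0 := by
    intro h
    apply ha
    have := (map_eq_zero σ).1 h
    exact_mod_cast this
  refine div_ne_zero h1 ?_
  intro h
  exact h1 ((map_eq_zero _).1 h)

theorem lv_zero (α β : 𝓞 K) : lv K α β 0 = 0 := by simp [lv]

theorem lv_add (α β : 𝓞 K) (v w : ℤ × ℤ) : lv K α β (v + w) = lv K α β v + lv K α β w := by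
  simp only [lv, Prod.fst_add, Prod.snd_add]
  push_cast
  ring

theorem lv_smul (α β : 𝓞 K) (n : ℤ) (v : ℤ × ℤ) :
    lv K α β (n • v) = (n : 𝓞 K) * lv K α β v := by
  simp only [lv, Prod.smul_fst, Prod.smul_snd, smul_eq_mul]
  push_cast
  ring

theorem lv_inj {σ : K →+* ℂ} {I : Ideal (𝓞 K)} {α β : 𝓞 K} {Q : QF} (h : OB K σ I α β Q)
    {v w : ℤ × ℤ} (hvw : lv K α β v = lv K α β w) : v = w := by
  have h1 := h.inj (v - w) (by
    simp only [Prod.fst_sub, Prod.snd_sub]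
    simp only [lv] at hvw
    push_cast
    linear_combination hvw)
  exact sub_eq_zero.1 h1

end

theorem det_anti (v w : ℤ × ℤ) : det v w = -det w v := by
  simp only [det]
  ring

theorem det_self (v : ℤ × ℤ) : det v v = 0 := by
  simp only [det]
  ring

theorem det_comb (v w : ℤ × ℤ) (n g : ℤ) : det v (n • v + g • w) = g * det v w := by
  simp only [det, Prod.fst_add, Prod.snd_add, Prod.smul_fst, Prod.smul_snd, smul_eq_mul]
  ring

open Classical in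
/-- (PRI) primitivity. -/
theorem pf_PRI (hTRN : Pool.Agent.H95.FC.T_TRN) (hANT : Pool.Agent.H95.FC.T_ANT)
    (hRHO : Pool.Agent.H95.FC.T_RHO) (hFRA : Pool.Agent.H95.FC.T_FRA)
    (hPRN : Pool.Agent.H95.CF.T_PRN) : Pool.Agent.H95.FC.T_PRI := by
  clear hFRA
  intro K _ _ σ D f m ψ I α β Q b T W hD hQ hOB hVB hLT hR p R hp hpf hinv
  obtain ⟨hT1, hT2, hT3⟩ := hTRN
  obtain ⟨hA1, hA2⟩ := hANT K σ D I α β Q hD hQ hOB
  obtain ⟨a, ⟨haP, n, hn⟩, hane⟩ := hR.prim p hp hpf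
  have ha0 : a ≠ 0 := Pool.Agent.H37.CF.pr_ne haP
  have hI0 : (I : Ideal (𝓞 K)) ≠ 0 := nonZeroDivisors.coe_ne_zero I
  obtain ⟨g, hg⟩ : ∃ g, g = f / p := ⟨_, rfl⟩
  rw [← hg] at hn hinv
  have hgf : g ∣ f := by rw [hg]; exact Nat.div_dvd_of_dvd hpf
  have hgf' : (g : ℤ) ∣ f := Int.natCast_dvd_natCast.2 hgf
  have hmem : ∀ v : ℤ × ℤ, lv K α β v ∈ (I : Ideal (𝓞 K)) := fun v => (hOB.mem _).2 ⟨v, rfl⟩
  have hex : ∀ z ∈ (I : Ideal (𝓞 K)), ∃ v, lv K α β v = z := fun z hz => by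
    obtain ⟨v, hv⟩ := (hOB.mem z).1 hz
    exact ⟨v, hv.symm⟩
  have hw : ∀ v : ℤ × ℤ, ∃ w, lv K α β w = a * lv K α β v := fun v =>
    hex _ (Ideal.mul_mem_left _ _ (hmem v))
  choose w hw using hw
  have hlv0 : ∀ v : ℤ × ℤ, v ≠ 0 → lv K α β v ≠ 0 := fun v hv h => hv (hOB.inj v h)
  have hw0 : ∀ v : ℤ × ℤ, v ≠ 0 → w v ≠ 0 := by
    intro v hv h
    have h1 := hw v
    rw [h, lv_zero] at h1
    exact mul_ne_zero ha0 (hlv0 v hv) h1.symm
  have hT0 : ∀ V ∈ T, V ≠ 0 := by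
    rintro V hV rfl
    have := hLT.one 0 hV
    simp [det] at this
  have hbw : ∀ v : ℤ × ℤ, v ≠ 0 →
      (b (w v) : Ideal (𝓞 K)) = Ideal.span {a} * (b v : Ideal (𝓞 K)) := by
    intro v hv
    have h1 := hVB.spn (w v) (hw0 v hv)
    rw [hw v, ← Ideal.span_singleton_mul_span_singleton, hVB.spn v hv, ← mul_assoc] at h1
    exact (mul_right_cancel₀ hI0 h1).symm
  have hPr : ∀ v : ℤ × ℤ, v ≠ 0 →
      (Pool.Agent.H95.CF.Pr K f (b v : Ideal (𝓞 K)) ↔ Uv f Q v) := by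
    intro v hv
    rw [hPRN K f (b v : Ideal (𝓞 K)) (nonZeroDivisors.coe_ne_zero (b v)), Uv, ← hVB.nrm v hv]
    exact Nat.isCoprime_iff_coprime.symm
  have hwU : ∀ V ∈ T, Uv f Q (w V) := by
    intro V hV
    rw [← hPr _ (hw0 V (hT0 V hV)), hbw V (hT0 V hV), Pool.Agent.H37.CF.pr_mul]
    exact ⟨haP, (hPr V (hT0 V hV)).2 (hLT.un V hV)⟩
  have hpi : ∀ V : ℤ × ℤ, ∃ P : ℤ × ℤ, V ∈ T → P ∈ T ∧ (f : ℤ) ∣ det P (w V) := by
    intro V
    by_cases hV : V ∈ T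
    · obtain ⟨P, hP1, hP2⟩ := hLT.ex (w V) (hwU V hV)
      exact ⟨P, fun _ => ⟨hP1, hP2⟩⟩
    · exact ⟨V, fun h => absurd h hV⟩
  choose pj hpj using hpi
  -- the values
  obtain ⟨c0, hc0⟩ : ∃ c0, c0 = ψ (Ideal.span {a}) * ty K σ a ^ (-m) := ⟨_, rfl⟩
  have hc1 : c0 ≠ 1 := by
    intro h
    rw [hc0, zpow_neg, mul_inv_eq_one₀ (zpow_ne_zero m (ty_ne σ ha0))] at h
    exact hane h
  have hα0 : ty K σ α ≠ 0 := by
    intro h
    rw [h, norm_zero] at hA2
    exact zero_ne_one hA2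
  have han : ∀ v : ℤ × ℤ, an (zx Q) (zy Q) (w v) = ty K σ a * an (zx Q) (zy Q) v := by
    intro v
    have h1 := hA1 (w v)
    rw [hw v, ty_mul, hA1 v] at h1
    apply mul_left_cancel₀ hα0
    rw [← h1]
    ring
  have hval : ∀ V ∈ T, rr m ψ b Q (pj V) = c0 * rr m ψ b Q V := by
    intro V hV
    obtain ⟨h1, h2⟩ := hpj V hV
    rw [hRHO K σ D f m ψ I α β Q b hD hQ hOB hVB hR (pj V) (w V) (hT0 _ h1) (hw0 V (hT0 V hV))
      (hLT.un _ h1) (hwU V hV) h2]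
    simp only [rr]
    rw [hbw V (hT0 V hV), hR.mul, han V, mul_zpow, hc0]
    ring
  -- the lines modulo `g`
  have hRpj : ∀ V ∈ T, (R V ↔ R (pj V)) := by
    intro V hV
    obtain ⟨h1, h2⟩ := hpj V hV
    apply hinv V hV (pj V) h1
    obtain ⟨y, hy⟩ := Ideal.mem_span_singleton.1 hn
    obtain ⟨w', hw'⟩ := hex _ (Ideal.mul_mem_left _ y (hmem V))
    have h3 : w V = n • V + (g : ℤ) • w' := by
      apply lv_inj hOB
      rw [hw V, lv_add, lv_smul, lv_smul, hw']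
      push_cast
      linear_combination (lv K α β V) * hy
    have h4 : (g : ℤ) ∣ det V (w V) := by
      rw [h3, det_comb]
      exact dvd_mul_right _ _
    refine hT1 g Q V (w V) (pj V) (hT3 f g Q (w V) hgf (hwU V hV)) h4 ?_
    rw [det_anti]
    exact (hgf'.trans h2).neg_right
  -- injectivity
  have hinj : Set.InjOn pj T := by
    intro V1 hV1 V2 hV2 h12
    obtain ⟨h1, h2⟩ := hpj V1 hV1
    obtain ⟨-, h3⟩ := hpj V2 hV2
    rw [← h12] at h3
    have h4 : (f : ℤ) ∣ det (w V1) (w V2) := by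
      refine hT1 f Q (w V1) (pj V1) (w V2) (hLT.un _ h1) ?_ h3
      rw [det_anti]
      exact h2.neg_right
    obtain ⟨t, u, htu⟩ := hT2 f Q (w V1) (w V2) (hwU V1 hV1) h4
    obtain ⟨a', -, ha'⟩ := Pool.Agent.H37.CF.ex_inv haP
    obtain ⟨z, hz⟩ := Ideal.mem_span_singleton.1 ha'
    have hzm : ((t : 𝓞 K) * z) * lv K α β V1 + a' * lv K α β u - z * lv K α β V2 ∈
        (I : Ideal (𝓞 K)) :=
      Ideal.sub_mem _ (Ideal.add_mem _ (Ideal.mul_mem_left _ _ (hmem _))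
        (Ideal.mul_mem_left _ _ (hmem _))) (Ideal.mul_mem_left _ _ (hmem _))
    obtain ⟨u', hu'⟩ := hex _ hzm
    have h5 : V2 = t • V1 + (f : ℤ) • u' := by
      apply lv_inj hOB
      rw [lv_add, lv_smul, lv_smul, hu']
      have h6 := hw V2
      rw [htu, lv_add, lv_smul, lv_smul, hw V1] at h6
      push_cast at h6 ⊢
      linear_combination (-a') * h6 - (lv K α β V2 - t * lv K α β V1) * hz
    apply hLT.uni V1 hV1 V2 hV2
    rw [h5, det_comb]
    exact dvd_mul_right _ _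
  have himg : T.image pj = T := by
    apply Finset.eq_of_subset_of_card_le
    · intro x hx
      obtain ⟨V, hV, rfl⟩ := Finset.mem_image.1 hx
      exact (hpj V hV).1
    · rw [Finset.card_image_of_injOn hinj]
  obtain ⟨S, hS⟩ : ∃ S, S = ∑ V ∈ T, (if R V then rr m ψ b Q V else 0) := ⟨_, rfl⟩
  have h1 : S = c0 * S := by
    have h2 : S = ∑ V ∈ T.image pj, (if R V then rr m ψ b Q V else 0) := by rw [himg, hS]
    rw [Finset.sum_image hinj] at h2
    have h3 : c0 * S = ∑ V ∈ T, c0 * (if R V then rr m ψ b Q V else 0) := by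
      rw [hS, Finset.mul_sum]
    rw [h3, h2]
    refine Finset.sum_congr rfl fun V hV => ?_
    by_cases hRV : R V
    · rw [if_pos hRV, if_pos ((hRpj V hV).1 hRV), hval V hV]
    · rw [if_neg hRV, if_neg (fun h => hRV ((hRpj V hV).2 h)), mul_zero]
  rw [← hS]
  by_contra hne
  apply hc1
  apply mul_right_cancel₀ hne
  rw [← h1, one_mul]

end Pool.Agent.H10.FC
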