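import Pool.Agent.H6.FC.Lem
import Pool.Agent.H63.FI.GIS

/-! MP_7500ea_al, board cfp_modules: row SG5 -/

open scoped Classical ComplexConjugate

namespace Pool.Agent.H10.FC

open FI AMc AMt

/-- composition of an irreducible character with an isomorphism -/
theorem irr_comp {S S' : Type} [Group S] [Finite S] [Group S'] [Finite S'] (e : S ≃* S') {χ : S' → ℂ}
    (h : χ ∈ Irr S') : (fun s => χ (e s)) ∈ Irr S := by
  have : Fintype S := Fintype.ofFinite S
  have : Fintype S' := Fintype.ofFinite S'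
  have h1 : IsChar S' χ := ((FI.Lib.lA3 S').1 χ h).1
  have h2 : IsChar S (fun s => χ (e s)) := FI.Lib.lA4.2.1 S S' e.toMonoidHom χ h1
  refine (FI.Lib.lA3 S).2.2.2 _ h2 ?_
  have h3 := FI.Lib.lA1 S' χ χ h h
  rw [if_pos rfl] at h3
  rw [Nat.card_congr e.toEquiv, ← h3]
  exact Equiv.sum_comp e.toEquiv (fun s' => χ s' * conj (χ s'))

/-- an irreducible character of degree one is linear -/
theorem lin_of_deg_one {M : Type} [Group M] {χ : M → ℂ} (h : χ ∈ Irr M) (h1 : χ 1 = 1) :
    ∃ μ : M →* ℂˣ, ∀ m, χ m = (μ m : ℂ) := by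
  obtain ⟨n, ρ, -, rfl⟩ := h
  have hn : n = 1 := by
    have h2 : ρ.character 1 = (n : ℂ) := by
      change LinearMap.trace ℂ (Fin n → ℂ) (ρ 1) = n
      rw [map_one, LinearMap.trace_one, Module.finrank_fin_fun]
    rw [h2] at h1
    exact_mod_cast h1
  subst hn
  have hmul : ∀ m m' : M, ρ.character (m * m') = ρ.character m * ρ.character m' := by
    intro m m'
    change LinearMap.trace ℂ (Fin 1 → ℂ) (ρ (m * m')) =
      LinearMap.trace ℂ (Fin 1 → ℂ) (ρ m) * LinearMap.trace ℂ (Fin 1 → ℂ) (ρ m')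
    rw [map_mul]
    conv_lhs => rw [Pool.Agent.H63.FI.lin1 (ρ m)]
    rw [smul_mul_assoc, map_smul, smul_eq_mul]
    rfl
  let φ : M →* ℂ := { toFun := ρ.character, map_one' := h1, map_mul' := hmul }
  exact ⟨φ.toHomUnits, fun m => rfl⟩

/-- the irreducible characters of a group isomorphic to `A₅` -/
theorem irr_cases {b4 b5 c3 c3' : Equiv.Perm (Fin 5) → ℂ} (h : A5T b4 b5 c3 c3') {S : Type} [Group S] [Finite S]
    (e : S ≃* A5) {ε : S → ℂ} (hε : ε ∈ Irr S) :
    ε = (fun _ => 1) ∨ ε = (fun s => b4 (e s)) ∨ ε = (fun s => b5 (e s)) ∨ ε = (fun s => c3 (e s)) ∨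
      ε = (fun s => c3' (e s)) := by
  have h1 : (fun a : A5 => ε (e.symm a)) ∈ Irr A5 := irr_comp e.symm hε
  have h2 : ext0 A5 (fun a : A5 => ε (e.symm a)) ∈ IrrS A5 := ⟨_, h1, rfl⟩
  have h3 : ∀ s : S, ext0 A5 (fun a : A5 => ε (e.symm a)) (e s) = ε s := by
    intro s
    unfold ext0
    rw [dif_pos (e s).2]
    change ε (e.symm (e s)) = ε s
    rw [MulEquiv.symm_apply_apply]
  have h4 : ∀ (f : Equiv.Perm (Fin 5) → ℂ) (s : S), rsf A5 f (e s) = f (e s) := fun f s => if_pos (e s).2
  rcases (h.all _).1 h2 with h5 | h5 | h5 | h5 | h5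
  · left
    funext s
    rw [← h3 s, h5, h4]
  · right; left
    funext s
    rw [← h3 s, h5, h4]
  · right; right; left
    funext s
    rw [← h3 s, h5, h4]
  · right; right; right; left
    funext s
    rw [← h3 s, h5]
  · right; right; right; right
    funext s
    rw [← h3 s, h5]

theorem irr_b4 {b4 b5 c3 c3' : Equiv.Perm (Fin 5) → ℂ} (h : A5T b4 b5 c3 c3') {S : Type} [Group S] [Finite S]
    (e : S ≃* A5) : (fun s => b4 (e s)) ∈ Irr S := by
  obtain ⟨ψ, h1, h2⟩ := (h.all (rsf A5 b4)).2 (Or.inr (Or.inl rfl))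
  have h3 : (fun s => b4 (e s)) = fun s => ψ (e s) := by
    funext s
    have h4 := congrFun h2 (e s)
    unfold ext0 at h4
    rw [dif_pos (e s).2] at h4
    have h5 : rsf A5 b4 (e s) = b4 (e s) := if_pos (e s).2
    rw [← h5, ← h4]
  rw [h3]
  exact irr_comp e h1

/-- the values at one -/
theorem irr_deg {b4 b5 c3 c3' : Equiv.Perm (Fin 5) → ℂ} (h : A5T b4 b5 c3 c3') {S : Type} [Group S] [Finite S]
    (e : S ≃* A5) {ε : S → ℂ} (hε : ε ∈ Irr S) :
    (ε = (fun _ => 1)) ∨ (ε = (fun s => b4 (e s)) ∧ ε 1 = 4) ∨ ε 1 = 5 ∨ ε 1 = 3 := by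
  have h1 : ((e 1 : A5) : Equiv.Perm (Fin 5)) = 1 := by
    rw [map_one]
    rfl
  rcases irr_cases h e hε with h2 | h2 | h2 | h2 | h2
  · exact Or.inl h2
  · refine Or.inr (Or.inl ⟨h2, ?_⟩)
    rw [h2]
    change b4 (e 1) = 4
    rw [h1, h.d4]
  · refine Or.inr (Or.inr (Or.inl ?_))
    rw [h2]
    change b5 (e 1) = 5
    rw [h1, h.d5]
  · refine Or.inr (Or.inr (Or.inr ?_))
    rw [h2]
    change c3 (e 1) = 3
    rw [h1, h.d3]
  · refine Or.inr (Or.inr (Or.inr ?_))
    rw [h2]
    change c3' (e 1) = 3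
    rw [h1, h.d3']

/-- the character of degree four extends -/
theorem ext_b4 (EXI : T_EXI) {b4 b5 c3 c3' : Equiv.Perm (Fin 5) → ℂ} (h : A5T b4 b5 c3 c3') {S : Type} [Group S]
    [Finite S] (hn : NAS S) (e : S ≃* A5) (hS : 2 * Nat.card S = 120) (hA : Nat.card (MulAut S) ≤ 120)
    (hinj : Function.Injective (MulAut.conj : S →* MulAut S)) : (fun s => b4 (e s)) ∈ Ext S := by
  have hfin : Finite (MulAut S) :=
    Finite.of_injective (fun α : MulAut S => (α : S → S)) DFunLike.coe_injective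
  have key : ∃ α0 : MulAut S, ∀ α : MulAut S, α ∈ (MulAut.conj : S →* MulAut S).range ∨
      α * α0⁻¹ ∈ (MulAut.conj : S →* MulAut S).range := by
    by_cases hall : ∀ α : MulAut S, α ∈ (MulAut.conj : S →* MulAut S).range
    · exact ⟨1, fun α => Or.inl (hall α)⟩
    · push Not at hall
      obtain ⟨α0, h0⟩ := hall
      refine ⟨α0, fun α => ?_⟩
      by_cases hα : α ∈ (MulAut.conj : S →* MulAut S).range
      · exact Or.inl hα
      · right
        have hc : Nat.card (MulAut.conj : S →* MulAut S).range = Nat.card S :=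
          Nat.card_congr (MonoidHom.ofInjective hinj).symm.toEquiv
        have hi := (MulAut.conj : S →* MulAut S).range.card_mul_index
        rw [hc] at hi
        have hi2 : (MulAut.conj : S →* MulAut S).range.index = 2 := by
          have h1 : (MulAut.conj : S →* MulAut S).range.index ≠ 1 := by
            intro h1
            rw [Subgroup.index_eq_one] at h1
            exact h0 (by rw [h1]; exact Subgroup.mem_top _)
          have h2 : (MulAut.conj : S →* MulAut S).range.index ≠ 0 := Subgroup.index_ne_zero_of_finite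
          have h3 : 60 * (MulAut.conj : S →* MulAut S).range.index ≤ 120 := by
            have : Nat.card S = 60 := by omega
            rw [this] at hi
            rw [hi]
            exact hA
          omega
        rw [Subgroup.mul_mem_iff_of_index_two hi2]
        constructor
        · intro h1
          exact absurd h1 hα
        · intro h1
          exact absurd ((Subgroup.inv_mem_iff _).1 h1) h0
  obtain ⟨α0, hα0⟩ := key
  refine EXI S hn α0 hα0 _ (irr_b4 h e) ?_
  have h1 := irr_comp (α0 : S ≃* S) (irr_b4 h e)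
  have h4 : b4 (e (α0 1)) = 4 := by
    rw [map_one, map_one]
    exact h.d4
  rcases irr_deg h e h1 with h2 | ⟨h2, -⟩ | h2 | h2
  · have h3 : b4 (e (α0 1)) = 1 := congrFun h2 1
    rw [h4] at h3
    norm_num at h3
  · intro s
    exact congrFun h2 s
  · have h3 : b4 (e (α0 1)) = 5 := h2
    rw [h4] at h3
    norm_num at h3
  · have h3 : b4 (e (α0 1)) = 3 := h2
    rw [h4] at h3
    norm_num at h3

theorem pf_SG5 (SPB : T_SPB) (EX0 : T_EX0) (EXI : T_EXI) (A5T : T_A5T) (_LCH : T_LCH) : T_SG5 := by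
  intro e he h24 S _ hS
  obtain ⟨e5⟩ := hS
  obtain ⟨hfin, hn, -, hcard, hAut, hidx⟩ := SPB 5 S (Or.inl ⟨rfl, ⟨e5⟩⟩)
  obtain ⟨b4, b5, c3, c3', hA⟩ := A5T
  have hone := (EX0 S hn).2
  have hcard' : 2 * Nat.card S = 120 := hcard
  have hAut' : Nat.card (MulAut S) ≤ 120 := hAut
  have h24' : (0 : ℝ) ≤ (24 : ℝ) ^ ((1 : ℝ) / 3) := by positivity
  have hg0 : 0 ≤ gg e S := by
    unfold gg
    positivity
  have hg2 : gg e S ≤ 2 := by
    unfold gg
    have h1 : (24 : ℝ) ^ ((1 : ℝ) / 3) * Nat.card (MulAut S) ≤ 2 ^ e := by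
      refine le_trans (mul_le_mul_of_nonneg_left ?_ h24') h24
      exact_mod_cast hAut'
    refine (Real.rpow_le_rpow (by positivity) h1 (by positivity)).trans (le_of_eq ?_)
    rw [← Real.rpow_mul (by norm_num), mul_one_div_cancel he.ne', Real.rpow_one]
  have hinj : Function.Injective (MulAut.conj : S →* MulAut S) := by
    rw [injective_iff_map_eq_one]
    intro a ha
    have := hn.sim
    have h1 : a ∈ Subgroup.center S := by
      rw [Subgroup.mem_center_iff]
      intro s
      have h1 : MulAut.conj a s = s := by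
        rw [ha]
        rfl
      rw [MulAut.conj_apply] at h1
      calc s * a = a * s * a⁻¹ * a := by rw [h1]
        _ = a * s := by group
    have h2 : (Subgroup.center S).Normal := inferInstance
    rcases h2.eq_bot_or_eq_top with h3 | h3
    · rw [h3] at h1
      exact Subgroup.mem_bot.1 h1
    · exfalso
      obtain ⟨x, y, hxy⟩ := hn.nab
      apply hxy
      have h4 : y ∈ Subgroup.center S := by
        rw [h3]
        exact Subgroup.mem_top _
      exact Subgroup.mem_center_iff.1 h4 x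
  have h4E := ext_b4 EXI hA hn e5 hcard' hAut' hinj
  refine ⟨hn.sim, hn.nab, ?_, ?_, ?_, ?_⟩
  · intro T hT
    have h1 := hidx T hT
    have h2 : (5 : ℝ) ≤ T.index := by exact_mod_cast h1
    linarith
  · have h1 : Nat.card S = 60 := by omega
    rw [h1]
    push_cast
    nlinarith
  · intro M _ _ π _ _ χ hχ
    have : Fintype M := Fintype.ofFinite M
    obtain ⟨d, hd0, hd⟩ := ((FI.Lib.lA3 M).1 χ hχ).2
    by_cases h1 : d = 1
    · right
      obtain ⟨μ, hμ⟩ := lin_of_deg_one hχ (by rw [hd, h1, Nat.cast_one])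
      exact ⟨μ, _, hone, fun m => by rw [mul_one]; exact hμ m⟩
    · left
      have h2 : 2 ≤ d := by omega
      have h3 : (2 : ℝ) ≤ d := by exact_mod_cast h2
      rw [hd, Complex.natCast_re]
      linarith
  · -- the product over the extendible characters
    have hsub : Ext S ⊆ Irr S := fun ε hε => hε.1
    have hF : (Ext S).Finite := by
      refine Set.Finite.subset (Set.toFinite ({(fun _ => 1), (fun s => b4 (e5 s)), (fun s => b5 (e5 s)),
        (fun s => c3 (e5 s)), (fun s => c3' (e5 s))} : Set (S → ℂ))) ?_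
      intro ε hε
      rcases irr_cases hA e5 (hsub hε) with h | h | h | h | h
      · exact Or.inl h
      · exact Or.inr (Or.inl h)
      · exact Or.inr (Or.inr (Or.inl h))
      · exact Or.inr (Or.inr (Or.inr (Or.inl h)))
      · exact Or.inr (Or.inr (Or.inr (Or.inr h)))
    refine (pow_le_pow_left₀ hg0 hg2 _).trans ?_
    rw [finprod_mem_eq_finite_toFinset_prod _ hF, Set.ncard_eq_toFinset_card _ hF]
    have m1 : (fun _ => (1 : ℂ)) ∈ hF.toFinset := hF.mem_toFinset.2 hone
    have m4 : (fun s => b4 (e5 s)) ∈ hF.toFinset := hF.mem_toFinset.2 h4E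
    have hb41 : b4 (e5 1) = 4 := by
      rw [map_one]
      exact hA.d4
    have hne : (fun s => b4 (e5 s)) ≠ (fun _ => (1 : ℂ)) := by
      intro h
      have h1 : b4 (e5 1) = 1 := congrFun h 1
      rw [hb41] at h1
      norm_num at h1
    have m4' : (fun s => b4 (e5 s)) ∈ hF.toFinset.erase (fun _ => (1 : ℂ)) := Finset.mem_erase.2 ⟨hne, m4⟩
    rw [← Finset.mul_prod_erase _ _ m1, ← Finset.mul_prod_erase _ _ m4']
    have hc1 := Finset.card_erase_add_one m1
    have hc4 := Finset.card_erase_add_one m4'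
    have hrest : ∀ ε ∈ (hF.toFinset.erase (fun _ => (1 : ℂ))).erase (fun s => b4 (e5 s)), (2 : ℝ) ≤ (ε 1).re := by
      intro ε hε
      rw [Finset.mem_erase, Finset.mem_erase, hF.mem_toFinset] at hε
      rcases irr_deg hA e5 (hsub hε.2.2) with h | ⟨h, -⟩ | h | h
      · exact absurd h hε.2.1
      · exact absurd h hε.1
      · rw [h]
        norm_num
      · rw [h]
        norm_num
    have hpr : (2 : ℝ) ^ ((hF.toFinset.erase (fun _ => (1 : ℂ))).erase (fun s => b4 (e5 s))).card ≤
        ∏ ε ∈ (hF.toFinset.erase (fun _ => (1 : ℂ))).erase (fun s => b4 (e5 s)), (ε 1).re := by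
      rw [← Finset.prod_const]
      exact Finset.prod_le_prod (fun _ _ => by norm_num) hrest
    rw [← hc1, ← hc4, pow_add, pow_add]
    have h1re : (((fun _ => (1 : ℂ)) : S → ℂ) 1).re = 1 := Complex.one_re
    have h4re : (((fun s => b4 (e5 s)) : S → ℂ) 1).re = 4 := by
      change (b4 (e5 1)).re = 4
      rw [hb41]
      norm_num
    rw [h1re, h4re]
    linarith

end Pool.Agent.H10.FC
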