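import Pool.Agent.H6.FC.Lem

/-! MP_7500ea_al, board cfp_modules: row SPB -/

namespace Pool.Agent.H10.FC

open FI AMc AMt

/-- the statement of SPB for one group -/
def Good (p : ℕ) (S : Type) [Group S] : Prop := Finite S ∧ NAS S ∧ 5 ≤ p ∧
  2 * Nat.card S = p * (p * p - 1) ∧ Nat.card (MulAut S) ≤ p * (p * p - 1) ∧
  ∀ T : Subgroup S, T ≠ ⊤ → p ≤ T.index

theorem good_congr {p : ℕ} {S S' : Type} [Group S] [Group S'] (e : S ≃* S') (h : Good p S') : Good p S := by
  obtain ⟨h1, h2, h3, h4, h5, h6⟩ := h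
  refine ⟨Finite.of_equiv _ e.symm.toEquiv, ⟨?_, ?_⟩, h3, ?_, ?_, ?_⟩
  · have := h2.sim
    have : Nontrivial S := e.toEquiv.nontrivial
    exact IsSimpleGroup.isSimpleGroup_of_surjective e.symm.toMonoidHom e.symm.surjective
  · obtain ⟨a, b, hab⟩ := h2.nab
    refine ⟨e.symm a, e.symm b, fun h => hab ?_⟩
    apply e.symm.injective
    rw [map_mul, map_mul, h]
  · rw [Nat.card_congr e.toEquiv]
    exact h4
  · rw [Nat.card_congr (MulAut.congr e).toEquiv]
    exact h5
  · intro T hT
    have h7 := h6 (T.map e.toMonoidHom) (by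
      intro h8
      apply hT
      rw [eq_top_iff]
      intro x _
      have h9 : e x ∈ T.map e.toMonoidHom := by
        rw [h8]
        exact Subgroup.mem_top _
      obtain ⟨y, hy, hxy⟩ := h9
      have : y = x := e.injective hxy
      rw [← this]
      exact hy)
    have h10 : (T.map e.toMonoidHom).index = T.index := Subgroup.index_map_equiv T e
    rwa [h10] at h7

theorem nas_of_al {S : Type} [Group S] (h : Al S ⊤) : NAS S := by
  obtain ⟨a, -, b, -, hab⟩ := h.nab
  refine ⟨?_, a, b, hab⟩
  have : Nontrivial S := ⟨⟨a * b, b * a, hab⟩⟩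
  refine ⟨fun N hN => ?_⟩
  by_cases h0 : N = ⊥
  · exact Or.inl h0
  · exact Or.inr (top_le_iff.1 (h.min N hN h0))

/-- a nonabelian simple group has trivial centre -/
theorem centre {S : Type} [Group S] (h : NAS S) (a : S) (ha : ∀ s, a * s = s * a) : a = 1 := by
  have := h.sim
  have h1 : (Subgroup.center S).Normal := inferInstance
  rcases h1.eq_bot_or_eq_top with h2 | h2
  · have h3 : a ∈ Subgroup.center S := Subgroup.mem_center_iff.2 fun g => (ha g).symm
    rw [h2] at h3
    exact Subgroup.mem_bot.1 h3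
  · exfalso
    obtain ⟨x, y, hxy⟩ := h.nab
    apply hxy
    have h3 : y ∈ Subgroup.center S := by
      rw [h2]
      exact Subgroup.mem_top _
    exact Subgroup.mem_center_iff.1 h3 x

/-- the inner automorphisms -/
theorem inn {S : Type} [Group S] [Finite S] (h : NAS S) :
    Finite (MulAut S) ∧ ((MulAut.conj : S →* MulAut S).range).Normal ∧
    (∀ α : MulAut S, (∀ s ∈ (MulAut.conj : S →* MulAut S).range, α * s = s * α) → α = 1) ∧
    Nonempty ((MulAut.conj : S →* MulAut S).range ≃* S) := by
  have hinj : Function.Injective (MulAut.conj : S →* MulAut S) := by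
    rw [injective_iff_map_eq_one]
    intro a ha
    apply centre h
    intro s
    have h1 : MulAut.conj a s = s := by
      rw [ha]
      rfl
    rw [MulAut.conj_apply] at h1
    calc a * s = a * s * a⁻¹ * a := by group
      _ = s * a := by rw [h1]
  have hc : ∀ (α : MulAut S) (s : S), α * MulAut.conj s * α⁻¹ = MulAut.conj (α s) := by
    intro α s
    ext x
    simp only [MulAut.mul_apply, MulAut.conj_apply, map_mul, map_inv, MulAut.apply_inv_self]
  refine ⟨Finite.of_injective (fun α : MulAut S => (α : S → S)) DFunLike.coe_injective, ⟨?_⟩, ?_,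
    ⟨(MonoidHom.ofInjective hinj).symm⟩⟩
  · rintro _ ⟨s, rfl⟩ α
    exact ⟨α s, (hc α s).symm⟩
  · intro α hα
    ext s
    have h1 := hα _ ⟨s, rfl⟩
    have h2 : MulAut.conj (α s) = MulAut.conj s := by
      rw [← hc, h1, mul_inv_cancel_right]
    exact hinj h2

theorem pf_SPB (PAM : T_PAM) (PA5 : T_PA5) (PSI : T_PSI) (CRD : T_CRD) (IDQ : T_IDQ) (ALQ : T_ALQ)
    (_ALS : T_ALS) (AL5 : T_AL5) (S5S : T_S5S) (_S5R : T_S5R) (_S5V : T_S5V) (_SOL : T_SOL) :
    T_SPB := by
  intro p S _ hp
  change Good p S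
  rcases hp with ⟨rfl, ⟨e⟩⟩ | ⟨hp, hp7, ⟨e⟩⟩
  · apply good_congr e
    have hal : Al A5 (⊤ : Subgroup A5) := by
      have h := AL5 A5 A5.subtype A5.subtype_injective (by rw [Subgroup.range_subtype])
      rwa [Subgroup.comap_subtype, Subgroup.subgroupOf_self] at h
    have hn := nas_of_al hal
    obtain ⟨i1, i2, i3, ⟨i4⟩⟩ := inn hn
    obtain ⟨f, hf, -, -⟩ := PA5 (MulAut A5) _ i2 i3 ⟨i4⟩
    have hcard : Nat.card (Equiv.Perm (Fin 5)) = 120 := by
      rw [Nat.card_eq_fintype_card, Fintype.card_perm, Fintype.card_fin]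
      rfl
    refine ⟨inferInstance, hn, le_refl _, ?_, ?_, ?_⟩
    · rw [Nat.card_eq_fintype_card, two_mul_card_alternatingGroup, Fintype.card_perm, Fintype.card_fin]
      rfl
    · have h := Nat.card_le_card_of_injective f hf
      rw [hcard] at h
      exact h
    · intro T hT
      have hle : T.map A5.subtype ≤ A5 := Subgroup.map_subtype_le T
      have h := S5S (T.map A5.subtype) A5 hle le_rfl (by
        intro h
        apply hT
        rw [eq_top_iff]
        intro x _
        obtain ⟨y, hy, hxy⟩ := h x.2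
        have : y = x := Subtype.ext hxy
        rw [← this]
        exact hy)
      have h2 : (T.map A5.subtype).relIndex A5 = T.index := by
        rw [Subgroup.relIndex, Subgroup.subgroupOf, Subgroup.comap_map_eq_self_of_injective A5.subtype_injective]
      rw [← h2]
      exact h.2
  · obtain ⟨ψ, -⟩ := PSI p hp
    apply good_congr (e.trans ψ)
    obtain ⟨c1, c2, c3, c4⟩ := CRD p hp hp7
    have hr : PS p ≤ (PS p).subtype.range := by rw [Subgroup.range_subtype]
    have hcm : (PS p).comap (PS p).subtype = ⊤ := by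
      rw [Subgroup.comap_subtype, Subgroup.subgroupOf_self]
    have hal : Al (PS p) (⊤ : Subgroup (PS p)) := by
      have h := ALQ p (PS p) (PS p).subtype hp hp7 (PS p).subtype_injective hr
      rwa [hcm] at h
    have hn := nas_of_al hal
    obtain ⟨i1, i2, i3, ⟨i4⟩⟩ := inn hn
    obtain ⟨f, hf, -, -⟩ := PAM p hp hp7 (MulAut (PS p)) _ i2 i3 ⟨i4.trans ψ.symm⟩
    refine ⟨inferInstance, hn, by omega, ?_, ?_, ?_⟩
    · have h := (PS p).card_mul_index
      rw [c3, c2] at h
      rw [← h, mul_comm]
    · have h := Nat.card_le_card_of_injective f hf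
      rw [c2] at h
      exact h
    · intro T hT
      refine IDQ p (PS p) (PS p).subtype hp hp7 (PS p).subtype_injective hr T ?_
      rw [hcm, top_le_iff]
      exact hT

end Pool.Agent.H10.FC
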